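import Pool.Agent.H.MP_918064_lc.Defs
import Pool.Agent.Lib.helper26.CXFpt

namespace Pool.Agent.H.MP_918064_lc

open Pool.Agent.Lib.CX Finset Classical

section
variable {V : Type} (G : SimpleGraph V)

def W : ℕ → V → V → Prop
  | 0, u, v => u = v
  | r + 1, u, v => W r u v ∨ ∃ w, G.Adj u w ∧ W r w v

def NI (v : V) : Prop := ∃ w, G.Adj v w

theorem W_iff (r : ℕ) (u v : V) : G.edist u v ≤ r ↔ W G r u v := by
  have : G.edist u v ≤ r ↔ ∃ p : G.Walk u v, p.length ≤ r := by
    refine ⟨fun h => ?_, fun ⟨p, h⟩ => p.edist_le.trans (by exact_mod_cast h)⟩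
    obtain ⟨p, e⟩ := SimpleGraph.exists_walk_of_edist_ne_top (ne_top_of_le_ne_top (ENat.natCast_ne_top r) h)
    exact ⟨p, by exact_mod_cast e.trans_le h⟩
  rw [this]
  clear this
  induction r generalizing u with
  | zero => exact ⟨fun ⟨p, h⟩ => p.eq_of_length_eq_zero (by omega), by rintro rfl; exact ⟨.nil, le_rfl⟩⟩
  | succ r ih =>
    simp only [W, ← ih]
    refine ⟨fun ⟨p, h⟩ => ?_, ?_⟩
    · cases p with
      | nil => exact .inl ⟨.nil, by simp⟩
      | cons a p => exact .inr ⟨_, a, p, by simpa using h⟩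
    · rintro (⟨p, h⟩ | ⟨w, a, p, h⟩)
      exacts [⟨p, by omega⟩, ⟨.cons a p, by simpa using h⟩]

variable {G}

theorem tw {r : ℕ} (hr : 2 ≤ r) {u v s : V} (h : ∀ w, G.Adj u w ↔ G.Adj v w) (hu : NI G u)
    (e : G.edist u s ≤ r) : G.edist v s ≤ r := by
  by_cases q : u = s
  · obtain ⟨w, a⟩ := hu
    exact ((W_iff G 2 v s).2 (.inr ⟨w, (h w).1 a, .inr ⟨s, q ▸ a.symm, rfl⟩⟩)).trans (by exact_mod_cast hr)
  rw [W_iff] at e ⊢
  clear hr
  induction r with
  | zero => exact (q e).elim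
  | succ r ih => exact e.imp ih fun ⟨w, a, b⟩ => ⟨w, (h w).1 a, b⟩

theorem balls [Fintype V] [DecidableEq V] {r : ℕ} (hr : 3 ≤ r) (X : Finset V) (K : Set V) (h : ∀ u v, u ∉ X → v ∉ X →
    (u ∈ K → v ∈ K → u ≠ v → G.Adj u v) ∧ (u ∉ K → v ∉ K → ¬ G.Adj u v)) :
    ((univ.filter fun v => NI G v).image fun v => univ.filter fun u => NI G u ∧ G.edist u v ≤ r).card ≤
      2 ^ (X.card + 2 ^ X.card + 1) := by
  let ty : V → Option (X ⊕ Finset X) := fun v => if h : v ∈ X then some (.inl ⟨v, h⟩) else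
    if v ∈ K ∨ ∃ w ∉ X, G.Adj v w then none else some (.inr (univ.filter fun x : X => G.Adj v x))
  have e1 : ∀ u v, NI G u → ty u = ty v → ty u ≠ none → ∀ s, G.edist u s ≤ r → G.edist v s ≤ r := by
    intro u v hu e n s
    simp only [ty] at e n
    split_ifs at e n with h1 h2 h3 h4 h5 h6 <;> simp only [Option.some.injEq, Sum.inl.injEq, Sum.inr.injEq,
      Subtype.mk.injEq, reduceCtorEq, ne_eq, not_true_eq_false] at e n
    · exact e ▸ id
    refine tw (by omega) (fun w => ?_) hu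
    by_cases q : w ∈ X
    · simpa using congrArg (⟨w, q⟩ ∈ ·) e
    · exact iff_of_false (fun a => h4 (.inr ⟨w, q, a⟩)) fun a => ‹¬ (v ∈ K ∨ ∃ w ∉ X, G.Adj v w)› (.inr ⟨w, q, a⟩)
  have e2 : ∀ u v, ty u = none → ty v = none → G.edist u v ≤ r := by
    have : ∀ u, ty u = none → ∃ w ∉ X, w ∈ K ∧ G.edist u w ≤ 1 := fun u e => by
      simp only [ty] at e
      split_ifs at e with h1 h2
      by_cases q : u ∈ K
      · exact ⟨u, h1, q, by simp⟩
      obtain ⟨w, a, b⟩ := h2.resolve_left q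
      exact ⟨w, a, by_contra fun n => (h u w h1 a).2 q n b, (SimpleGraph.edist_eq_one_iff_adj.2 b).le⟩
    intro u v hu hv
    obtain ⟨x, a, b, c⟩ := this u hu
    obtain ⟨y, d, e, f⟩ := this v hv
    have g : G.edist x y ≤ 1 := SimpleGraph.edist_le_one_iff_adj_or_eq.2 (or_iff_not_imp_right.2 ((h x y a d).1 b e))
    rw [SimpleGraph.edist_comm] at f
    refine (SimpleGraph.edist_triangle.trans (add_le_add c (SimpleGraph.edist_triangle.trans (add_le_add g f)))).trans ?_
    exact_mod_cast hr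
  let F : Finset (X ⊕ Finset X) ⊕ X ⊕ Finset X → Finset V := Sum.elim
    (fun A => univ.filter fun u => NI G u ∧ ∀ t, ty u = some t → t ∈ A)
    fun t => univ.filter fun u => NI G u ∧ ∃ v, NI G v ∧ ty v = some t ∧ G.edist v u ≤ r
  refine (card_le_card (t := univ.image F) (image_subset_iff.2 fun v hv => mem_image.2 ?_)).trans (card_image_le.trans ?_)
  · cases e : ty v with
    | none =>
      refine ⟨.inl (univ.filter fun t => ∃ u, NI G u ∧ ty u = some t ∧ G.edist u v ≤ r), mem_univ _,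
        filter_congr fun u _ => and_congr_right fun hu => ⟨fun q => ?_, fun q t m => mem_filter.2 ⟨mem_univ _, u, hu, m, q⟩⟩⟩
      cases m : ty u with
      | none => exact e2 u v m e
      | some t =>
        obtain ⟨x, a, b, c⟩ := (mem_filter.1 (q t m)).2
        exact e1 x u a (b.trans m.symm) (by simp [b]) v c
    | some t =>
      refine ⟨.inr t, mem_univ _, filter_congr fun u _ => and_congr_right fun hu => ?_⟩
      rw [SimpleGraph.edist_comm (u := u)]
      exact ⟨fun ⟨x, a, b, c⟩ => e1 x v a (b.trans e.symm) (by simp [b]) u c, fun q => ⟨v, (mem_filter.1 hv).2, e, q⟩⟩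
  · have := Nat.lt_two_pow_self (n := X.card + 2 ^ X.card)
    simp only [card_univ, Fintype.card_sum, Fintype.card_finset, Fintype.card_coe]
    omega

theorem cover [Fintype V] {β : Type} [DecidableEq β] (r l : ℕ) (φ : V → β) (M : V → β → Prop)
    (hM : ∀ u v, NI G u → (M u (φ v) ↔ G.edist u v ≤ r)) : (∃ S : Finset V, S.card ≤ l ∧ ∀ v, ∃ s ∈ S, G.edist v s ≤ r) ↔
    ∃ T ⊆ (univ.filter fun v => NI G v).image φ,
      T.card + (univ.filter fun v => ¬ NI G v).card ≤ l ∧ ∀ v, NI G v → ∃ B ∈ T, M v B := by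
  have k : ∀ r : ℕ, ∀ u v, G.edist u v ≤ r → u = v ∨ NI G u := fun r u v h => by
    rw [W_iff] at h
    induction r with
    | zero => exact .inl h
    | succ r ih => exact h.elim ih fun ⟨w, a, _⟩ => .inr ⟨w, a⟩
  refine ⟨fun ⟨S, h1, h2⟩ => ⟨_, image_subset_image (filter_subset_filter _ (subset_univ S)), ?_, fun v hv => ?_⟩,
    fun ⟨T, h1, h2, h3⟩ => ?_⟩
  · refine le_trans (add_le_add card_image_le (card_le_card fun v hv => ?_)) ((card_filter_add_card_filter_not _).trans_le h1)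
    obtain ⟨s, a, b⟩ := h2 v
    obtain rfl := (k r v s b).resolve_right (mem_filter.1 hv).2
    exact mem_filter.2 ⟨a, (mem_filter.1 hv).2⟩
  · obtain ⟨s, a, b⟩ := h2 v
    exact ⟨_, mem_image_of_mem _ (mem_filter.2 ⟨a, (k r s v (SimpleGraph.edist_comm ▸ b)).elim (· ▸ hv) id⟩),
      (hM _ _ hv).2 b⟩
  · choose g _ g2 using fun B : T => mem_image.1 (h1 B.2)
    refine ⟨univ.image g ∪ _, (card_union_le _ _).trans ((add_le_add_left (card_image_le.trans_eq (by simp)) _).trans h2),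
      fun v => ?_⟩
    by_cases hv : NI G v
    · obtain ⟨B, a, b⟩ := h3 v hv
      exact ⟨g ⟨B, a⟩, by simp, (hM _ _ hv).1 ((g2 ⟨B, a⟩).symm ▸ b)⟩
    · exact ⟨v, mem_union_right _ (mem_filter.2 ⟨mem_univ _, hv⟩), by simp⟩
end

def wb (a : Gr) : ℕ → ℕ → ℕ → Bool
  | 0, u, v => u = v
  | r + 1, u, v => wb a r u v || ∃ w < a.n, a.adjB u w ∧ wb a r w v

theorem pt_wb (r : ℕ) : PT fun x : Gr × ℕ × ℕ => wb x.1 r x.2.1 x.2.2 := by
  induction r with
  | zero => unfold wb; fun_prop
  | succ r ih =>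
    have : PT fun x : (Gr × ℕ × ℕ) × ℕ => wb x.1.1 r x.2 x.1.2.2 :=
      ih.comp (g := fun x : (Gr × ℕ × ℕ) × ℕ => (x.1.1, x.2, x.1.2.2)) (by fun_prop)
    unfold wb; fun_prop

theorem wb_iff (a : Gr) (r : ℕ) (u v : Fin a.n) : wb a r u v ↔ a.G.edist u v ≤ r := by
  rw [W_iff]
  induction r generalizing u with
  | zero => simp [wb, W, Fin.val_inj]
  | succ r ih => simp [wb, W, ← ih, ← Gr.adjB_iff, Fin.exists_iff, and_left_comm]

def ni (a : Gr) : List ℕ := (List.range a.n).filter fun v => ∃ w < a.n, a.adjB v w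
def bl (a : Gr) (r : ℕ) : List (List ℕ) := ((ni a).map fun v => (ni a).filter fun u => wb a r u v).dedup

theorem fpt {r : ℕ} (hr : 3 ≤ r) : FPT (RDom r) par := by
  have h0 : PT ni := by unfold ni; fun_prop
  have h1 : PT fun x : (Gr × ℕ) × ℕ => wb x.1.1 r x.2 x.1.2 :=
    (pt_wb r).comp (g := fun x : (Gr × ℕ) × ℕ => (x.1.1, x.2, x.1.2)) (by fun_prop)
  have h2 : PT fun a => bl a r := by unfold bl; fun_prop
  have h3 : PT fun a : Inp => a.1 := PT.val PT.id
  have c2 : Computable fun k : ℕ => 2 ^ k := (Primrec₂.unpaired'.1 Nat.Primrec.pow).to_comp.comp (.const 2) .id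
  have mn : ∀ (a : Gr) v, v ∈ ni a ↔ ∃ u : Fin a.n, NI a.G u ∧ u.1 = v := fun a v => by
    simp [ni, NI, ← Gr.adjB_iff, Fin.exists_iff, and_comm]
  have e : ∀ a, (bl a r).toFinset = (univ.filter fun v => NI a.G v).image fun v : Fin a.n =>
      (ni a).filter fun u => wb a r u v := fun a => by
    ext B
    simp only [bl, List.mem_toFinset, List.mem_dedup, List.mem_map, mn, mem_image, mem_filter, mem_univ,
      true_and, exists_exists_and_eq_and]
  have nd : ∀ a, (bl a r).Nodup := fun a => List.nodup_dedup _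
  refine FPT.of_pad (M := fun a => 2 ^ (bl a.1.1 r).length) (by fun_prop) (f := fun k => 2 ^ 2 ^ (k + 2 ^ k + 1))
    (c2.comp (c2.comp (Computable.succ.comp (Primrec.nat_add.to_comp.comp .id c2)))) (PB.const 1) (fun a => ?_)
    (V := fun x => decide (∃ m < x.2.length, ((bl x.1.1.1 r).filter fun B => m.testBit ((bl x.1.1.1 r).idxOf B)).length +
      (x.1.1.1.n - (ni x.1.1.1).length) ≤ x.1.1.2.1 ∧ ∀ v ∈ ni x.1.1.1, ∃ B ∈ bl x.1.1.1 r,
        m.testBit ((bl x.1.1.1 r).idxOf B) ∧ v ∈ B)) (by fun_prop) fun ⟨⟨a, l, X⟩, _⟩ => ?_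
  · obtain ⟨K, hK⟩ := a.2
    rw [mul_one, ← List.toFinset_card_of_nodup (nd _), e]
    refine Nat.pow_le_pow_right two_pos (le_trans ?_ ((card_image_le (f := fun B => (ni a.1.1).filter
      (· ∈ B.image Fin.val))).trans (balls hr _ K (by simpa using hK))))
    rw [image_image]
    refine le_of_eq (congrArg card (image_congr fun v _ => ?_))
    refine List.filter_congr fun u hu => ?_
    obtain ⟨u, h, rfl⟩ := (mn _ u).1 hu
    rw [Bool.eq_iff_iff, wb_iff]; simp [h, Fin.val_inj]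
  · have i : (univ.filter fun v => ¬ NI a.G v).card = a.n - (ni a).length := by
      rw [← List.toFinset_card_of_nodup (l := ni a) (List.nodup_range.filter _), show (ni a).toFinset =
        (univ.filter fun v => NI a.G v).image Fin.val by ext; simp [mn], card_image_of_injective _ Fin.val_injective]
      have := card_filter_add_card_filter_not (s := univ) fun v => NI a.G v
      rw [card_univ, Fintype.card_fin] at this; omega
    rw [RDom, cover (G := a.G) r l (fun v => (ni a).filter fun u => wb a r u v) (fun v B => v.1 ∈ B) fun u v h => by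
      simp [mn, wb_iff, Fin.val_inj, h], ← e, i]
    simp only [decide_eq_true_eq, List.length_replicate, mn, forall_exists_index, and_imp, forall_apply_eq_imp_iff₂]
    refine ⟨fun ⟨m, _, a1, a2⟩ => ⟨_, fun B h => List.mem_toFinset.2 (List.mem_of_mem_filter (List.mem_toFinset.1 h)), by
      rwa [List.toFinset_card_of_nodup ((nd _).filter _)], by simpa [and_assoc] using a2⟩, fun ⟨T, a1, a2, a3⟩ => ?_⟩
    have t : ∀ B ∈ bl a r, (Nat.ofBits fun i : Fin (bl a r).length => decide ((bl a r)[i] ∈ T)).testBit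
        ((bl a r).idxOf B) = decide (B ∈ T) := fun B hB => by
      rw [Nat.testBit_ofBits_lt _ _ (List.idxOf_lt_length_of_mem hB)]; simp
    refine ⟨_, Nat.ofBits_lt_two_pow fun i : Fin (bl a r).length => decide ((bl a r)[i] ∈ T), ?_, fun v h => ?_⟩
    · rwa [List.filter_congr t, ← List.toFinset_card_of_nodup ((nd _).filter _), List.toFinset_filter,
        show (bl a r).toFinset.filter _ = T by ext B; simpa using fun h => List.mem_toFinset.1 (a1 h)]
    · obtain ⟨B, b1, b2⟩ := a3 v h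
      have := List.mem_toFinset.1 (a1 b1)
      exact ⟨B, this, (t B this).trans (decide_eq_true b1), b2⟩

end Pool.Agent.H.MP_918064_lc
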