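import Pool.Agent.H.MP_918064_lc.A

namespace Pool.Agent.H.MP_918064_lc

open Pool.Agent.Lib.CX Finset Classical

abbrev T := ℕ × ℕ × ℕ
def In (k n : ℕ) (x : T) : Prop := (x.1 < 2 ∧ x.2.1 < k ∧ x.2.2 = 0) ∨ (x.1 = 2 ∧ x.2.1 < k ∧ x.2.2 < n) ∨
  ((x.1 = 3 ∨ x.1 = 4) ∧ x.2.1 = 0 ∧ x.2.2 < n)
def rl (b : Bool) (x y : T) : Prop := (x.1 = 0 ∧ (y.1 = 1 ∨ y.1 = 2) ∧ x.2.1 = y.2.1) ∨
  (x.1 = 4 ∧ (((y.1 = 3 ∨ y.1 = 2) ∧ x.2.2 = y.2.2) ∨ y.1 = 4 ∨ (y.1 = 2 ∧ b)))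
instance (k n x) : Decidable (In k n x) := by unfold In; infer_instance
instance (b x y) : Decidable (rl b x y) := by unfold rl; infer_instance
def kk (a : Gr × ℕ) : ℕ := min a.2 a.1.n
def vs (a : Gr × ℕ) : List T := (List.range 5 ×ˢ List.range (kk a + 1) ×ˢ List.range (a.1.n + 1)).filter (In (kk a) a.1.n)
def es (a : Gr × ℕ) : List (T × T) := (vs a ×ˢ vs a).filter fun e => rl (a.1.adjB e.1.2.2 e.2.2.2) e.1 e.2
def red (a : Gr × ℕ) : Gr × ℕ × List ℕ :=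
  (mkGr (vs a) (es a), kk a, (List.range (vs a).dedup.length).filter fun i => ((vs a).dedup.getD i (0, 0, 0)).1 = 0)

theorem mem_vs {a x} : x ∈ vs a ↔ In (kk a) a.1.n x := by
  obtain ⟨t, j, v⟩ := x
  simp only [vs, List.mem_filter, List.mem_product, List.mem_range, decide_eq_true_eq, In]
  omega

theorem pt_red : PT red := by
  have h0 : PT kk := by unfold kk; fun_prop
  have h1 : PB kk := PB.min_right (by fun_prop)
  have h3 : PT fun q : (Gr × ℕ) × T => decide (In (kk q.1) q.1.1.n q.2) := by unfold In; fun_prop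
  have h4 : PT vs := by unfold vs; fun_prop
  have h5 : PT fun q : (Gr × ℕ) × T × T => decide (rl (q.1.1.adjB q.2.1.2.2 q.2.2.2.2) q.2.1 q.2.2) := by
    unfold rl; fun_prop
  have h6 : PT es := by unfold es; fun_prop
  have h7 : PT fun d : List T => (List.range d.length).filter fun i => (d.getD i (0, 0, 0)).1 = 0 := by fun_prop
  exact (h4.mkGr h6).pair (h0.pair (h7.comp h4.dedup))

theorem adj_red (a : Gr × ℕ) (u v : Fin (red a).1.n) : (red a).1.G.Adj u v ↔ u ≠ v ∧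
    (rl (a.1.adjB (mkGrEquiv _ _ u).1.2.2 (mkGrEquiv _ _ v).1.2.2) (mkGrEquiv _ _ u).1 (mkGrEquiv _ _ v).1 ∨
    rl (a.1.adjB (mkGrEquiv _ _ v).1.2.2 (mkGrEquiv _ _ u).1.2.2) (mkGrEquiv _ _ v).1 (mkGrEquiv _ _ u).1) := by
  have : ∀ x y : {x | x ∈ vs a}, (x.1, y.1) ∈ es a ↔ rl (a.1.adjB x.1.2.2 y.1.2.2) x.1 y.1 := fun x y => by
    simp only [es, List.mem_filter, List.mem_product, decide_eq_true_eq]; exact and_iff_right ⟨x.2, y.2⟩
  rw [← this, ← this, ← mkGr_arc, ← mkGr_arc]; rfl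

theorem mem_X (a : Gr × ℕ) (u : Fin (red a).1.n) : u.1 ∈ (red a).2.2 ↔ (mkGrEquiv _ _ u).1.1 = 0 := by
  have h := u.2.trans_eq (mkGr_n _ _)
  simp only [red, List.mem_filter, List.mem_range, decide_eq_true_eq, h, true_and, List.getD_eq_getElem _ _ h]
  rfl

theorem mod_red (a : Gr × ℕ) : Mod (red a) := by
  refine ⟨{u | (mkGrEquiv _ _ u).1.1 = 4}, fun u v => ?_⟩
  simp only [mem_X, adj_red, rl, Set.mem_ofPred_eq]
  grind

def Ad (a : Gr) (x y : T) : Prop := x ≠ y ∧ (rl (a.adjB x.2.2 y.2.2) x y ∨ rl (a.adjB y.2.2 x.2.2) y x)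

theorem rd_iff (a : Gr × ℕ) : RDom 2 ⟨red a, mod_red a⟩ ↔ ∃ S : Finset T, S.card ≤ kk a ∧ (∀ x ∈ S, x ∈ vs a) ∧
    ∀ x ∈ vs a, ∃ s ∈ S, x = s ∨ Ad a.1 x s ∨ ∃ z ∈ vs a, Ad a.1 x z ∧ Ad a.1 z s := by
  let φ : Fin (red a).1.n ≃ _ := mkGrEquiv (vs a) (es a)
  have e0 : ∀ u v, (red a).1.G.Adj u v ↔ Ad a.1 (φ u) (φ v) := fun u v => by
    rw [adj_red, Ad, ne_eq, ne_eq, Subtype.val_inj, φ.apply_eq_iff_eq]; rfl
  have e : ∀ u v, (red a).1.G.edist u v ≤ (2 : ℕ) ↔ (φ u).1 = φ v ∨ Ad a.1 (φ u) (φ v) ∨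
      ∃ z ∈ vs a, Ad a.1 (φ u) z ∧ Ad a.1 z (φ v) := fun u v => by
    simp only [W_iff, W, exists_eq_right, e0, Subtype.val_inj, φ.apply_eq_iff_eq, and_or_left, exists_or, or_assoc]
    refine or_congr_right ⟨fun h => ?_, fun h => h.imp id fun ⟨z, h, q⟩ => .inr ⟨φ.symm ⟨z, h⟩, by simpa using q⟩⟩
    exact h.elim .inl fun h => h.imp id fun ⟨z, q⟩ => ⟨_, (φ z).2, q⟩
  simp only [RDom, e]
  refine ⟨fun ⟨S, h1, h2⟩ => ⟨S.image fun u => φ u, card_image_le.trans h1, forall_mem_image.2 fun u _ => (φ u).2,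
    fun x hx => ?_⟩, fun ⟨S, h1, h2, h3⟩ => ⟨S.attach.image fun x => φ.symm ⟨x.1, h2 _ x.2⟩,
      card_image_le.trans (card_attach.trans_le h1), fun v => ?_⟩⟩
  · obtain ⟨s, a, b⟩ := h2 (φ.symm ⟨x, hx⟩)
    exact ⟨_, mem_image_of_mem _ a, by simpa using b⟩
  · obtain ⟨s, a, b⟩ := h3 _ (φ v).2
    exact ⟨_, mem_image_of_mem _ (mem_attach _ ⟨s, a⟩), by simpa using b⟩

theorem dom_red (a : Gr × ℕ) : DomSet a ↔ RDom 2 ⟨red a, mod_red a⟩ := by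
  simp only [rd_iff, mem_vs]
  refine ⟨fun ⟨s, h1, h2⟩ => ?_, fun ⟨S, h1, h2, h3⟩ => ?_⟩
  · let g := fun j => (s.toList.map Fin.val).getD j 0
    have g1 : ∀ j < kk a, g j < a.1.n := fun j hj => by
      rcases Nat.lt_or_ge j (s.toList.map Fin.val).length with q | q
      · simp only [g, List.getD_eq_getElem _ _ q, List.getElem_map, Fin.is_lt]
      · simp only [g, List.getD_eq_default _ _ q]; unfold kk at hj; omega
    have g2 : ∀ e < a.1.n, ∃ j < kk a, e = g j ∨ a.1.adjB e (g j) := fun e he => by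
      obtain ⟨d, a1, a2⟩ : ∃ d ∈ s, e = d.1 ∨ a.1.adjB e d := (h2 ⟨e, he⟩).elim (fun h => ⟨_, h, .inl rfl⟩)
        fun ⟨d, h, q⟩ => ⟨d, h, .inr ((a.1.adjB_iff ⟨e, he⟩ d).2 q.symm)⟩
      obtain ⟨j, hj, e⟩ := List.getElem_of_mem (List.mem_map_of_mem (f := Fin.val) (mem_toList.2 a1))
      have := (card_le_univ s).trans_eq (Fintype.card_fin _)
      exact ⟨j, (hj.trans_eq (by simp)).trans_le (le_min h1 this), by simpa only [g, List.getD_eq_getElem _ _ hj, e]⟩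
    refine ⟨(range (kk a)).image fun j => (2, j, g j), card_image_le.trans (by simp), by simpa +contextual [In] using g1, ?_⟩
    simp only [mem_image, mem_range, exists_exists_and_eq_and]
    rintro ⟨t, j, v⟩ (⟨h, hj, rfl⟩ | ⟨rfl, hj, hv⟩ | ⟨h, rfl, hv⟩)
    · refine ⟨j, hj, .inr ?_⟩
      obtain rfl | rfl : t = 0 ∨ t = 1 := by simp only at h; omega
      exacts [.inl (by simp [Ad, rl]), .inr ⟨(0, j, 0), .inl ⟨two_pos, hj, rfl⟩, by simp [Ad, rl]⟩]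
    · exact ⟨j, hj, .inr (.inr ⟨(0, j, 0), .inl ⟨two_pos, hj, rfl⟩, by simp [Ad, rl]⟩)⟩
    · obtain ⟨j, hj, q⟩ := g2 v hv
      refine ⟨j, hj, .inr ?_⟩
      rcases h with rfl | rfl
      exacts [.inr ⟨(4, 0, v), by simpa [In] using hv, by simpa [Ad, rl] using q⟩, .inl (by simpa [Ad, rl] using q)]
  · have k1 : ∀ j : Fin (kk a), ∃ s ∈ S, s.1 ≤ 2 ∧ s.2.1 = j := fun j => by
      obtain ⟨s, a1, a2⟩ := h3 (1, j, 0) (.inl ⟨one_lt_two, j.2, rfl⟩)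
      refine ⟨s, a1, ?_⟩
      rcases a2 with rfl | a2 | ⟨z, -, a2, a3⟩
      · simp
      · simp [Ad, rl] at a2; omega
      · simp [Ad, rl] at a2 a3; omega
    choose f f1 f2 f3 using k1
    have k2 : univ.image f = S := eq_of_subset_of_card_le (image_subset_iff.2 fun j _ => f1 j) (by
      rw [card_image_of_injective _ fun i j e => Fin.ext (by rw [← f3, e, f3])]; simpa using h1)
    refine ⟨univ.filter fun v => ∃ s ∈ S, s.2.2 = v.1, ?_, fun v => ?_⟩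
    · refine (card_le_card_of_injOn Fin.val (t := S.image (·.2.2)) (by simp [Set.MapsTo]) Fin.val_injective.injOn).trans
        (card_image_le.trans (h1.trans (min_le_left _ _)))
    · obtain ⟨s, a1, a2⟩ := h3 (3, 0, v) (by simp [In])
      obtain ⟨j, -, rfl⟩ := mem_image.1 (k2.ge a1)
      have a3 := f2 j
      have a4 := h2 _ a1
      obtain ⟨a5, a6⟩ : (f j).2.2 < a.1.n ∧ ((f j).2.2 = v ∨ a.1.adjB v (f j).2.2) := by
        simp only [Ad, rl, In] at a2 a4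
        grind
      exact a6.imp (fun h => mem_filter.2 ⟨mem_univ _, _, a1, h⟩) fun h =>
        ⟨⟨_, a5⟩, mem_filter.2 ⟨mem_univ _, _, a1, rfl⟩, ((a.1.adjB_iff v ⟨_, a5⟩).1 h).symm⟩

theorem hard : ∃ R : Gr × ℕ → Inp, PT R ∧ ∀ a, (DomSet a ↔ RDom 2 (R a)) ∧ par (R a) ≤ a.2 := by
  refine ⟨fun a => ⟨red a, mod_red a⟩, pt_red.cast fun _ => rfl, fun a => ⟨dom_red a, (card_le_card_of_injOn
    (fun u => (mkGrEquiv _ _ u).1.2.1) (t := range (kk a)) (fun u hu => ?_) fun u hu v hv e => ?_).trans (by simp [kk])⟩⟩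
  · have := mem_vs.1 (mkGrEquiv _ _ u).2
    have := (mem_X a u).1 (mem_filter.1 hu).2
    simp only [In, coe_range, Set.mem_Iio] at *; omega
  · have h1 := mem_vs.1 (mkGrEquiv _ _ u).2
    have h2 := mem_vs.1 (mkGrEquiv _ _ v).2
    have h3 := (mem_X a u).1 (mem_filter.1 hu).2
    have h4 := (mem_X a v).1 (mem_filter.1 hv).2
    exact (mkGrEquiv _ _).injective (Subtype.ext (Prod.ext (h3.trans h4.symm) (Prod.ext e (by unfold In at *; omega))))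

end Pool.Agent.H.MP_918064_lc
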