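import Pool.Agent.Lib.lead.CXGraph
import Pool.Agent.Lib.helper26.CXFptDefs

namespace Pool.Agent.H.MP_918064_lc

open Pool.Agent.Lib.CX

/-- the listed vertices form a split modulator: the other vertices split into a clique `K` and an independent set -/
def Mod (a : Gr × ℕ × List ℕ) : Prop := ∃ K : Set (Fin a.1.n), ∀ u v : Fin a.1.n, u.1 ∉ a.2.2 → v.1 ∉ a.2.2 →
  (u ∈ K → v ∈ K → u ≠ v → a.1.G.Adj u v) ∧ (u ∉ K → v ∉ K → ¬ a.1.G.Adj u v)

/-- inputs: a graph, a bound and a split modulator -/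
abbrev Inp := {a : Gr × ℕ × List ℕ // Mod a}

/-- the parameter: the number of vertices of the modulator -/
def par (a : Inp) : ℕ := (Finset.univ.filter fun v : Fin a.1.1.n => v.1 ∈ a.1.2.2).card

/-- an `r`-dominating set of size at most the bound exists -/
def RDom (r : ℕ) (a : Inp) : Prop :=
  ∃ S : Finset (Fin a.1.1.n), S.card ≤ a.1.2.1 ∧ ∀ v, ∃ s ∈ S, a.1.1.G.edist v s ≤ r

/-- Dominating Set -/
def DomSet (a : Gr × ℕ) : Prop := ∃ s : Finset (Fin a.1.n), s.card ≤ a.2 ∧ ∀ v, v ∈ s ∨ ∃ u ∈ s, a.1.G.Adj u v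

end Pool.Agent.H.MP_918064_lc
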